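import Pool.Agent.H23BB.Theory

set_option autoImplicit false

/-!
Basic consequences of the laws of a Chow theory.
-/

universe w u v

namespace Pool.Agent.H23BB

noncomputable section

variable {W : Geo.{w, u}}

namespace ChowTheory

variable {T : ChowTheory.{w, u, v} W}

theorem InCH.add {X : W.Obj} {j : ℤ} {a b : T.C.R X} (ha : T.InCH X j a) (hb : T.InCH X j b) :
    T.InCH X j (a + b) := Submodule.add_mem (T.CH X j) ha hb

theorem InCH.sub {X : W.Obj} {j : ℤ} {a b : T.C.R X} (ha : T.InCH X j a) (hb : T.InCH X j b) :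
    T.InCH X j (a - b) := Submodule.sub_mem (T.CH X j) ha hb

/-- the homologically trivial classes in `CH^j(X)` -/
def hom (T : ChowTheory.{w, u, v} W) (X : W.Obj) (j : ℤ) : T.C.Sub X :=
  T.CH X j ⊓ LinearMap.ker (T.cl X).toLinearMap

theorem mem_hom {X : W.Obj} {j : ℤ} {z : T.C.R X} : z ∈ T.hom X j ↔ T.InHom X j z := by
  simp [hom, InHom, InCH, Gysin.In, cls]

/-- the kernel of the Abel-Jacobi map on `CH^j(X)_hom` -/
def kerAJ (T : ChowTheory.{w, u, v} W) (X : W.Obj) (j : ℤ) : T.C.Sub X :=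
  T.hom X j ⊓ LinearMap.ker (T.AJ X j)

theorem mem_kerAJ {X : W.Obj} {j : ℤ} {z : T.C.R X} : z ∈ T.kerAJ X j ↔ T.InKerAJ X j z := by
  simp only [kerAJ, Submodule.mem_inf, mem_hom, LinearMap.mem_ker]
  rfl

variable (hT : T.Laws)

include hT

theorem Laws.act_mem {X Y : W.Obj} {l j : ℤ} {γ : T.C.R (W.prod X Y)}
    (hγ : T.InCH (W.prod X Y) l γ) {z : T.C.R X} (hz : T.InCH X j z) :
    T.InCH Y (j + l - T.dim X) (T.C.act γ z) := by
  have h := hT.chow.push _ _ (W.snd X Y) _ _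
    (hT.chow.mul _ _ _ _ _ (hT.chow.pull _ _ (W.fst X Y) _ _ hz) hγ)
  have e : j + l + (T.dim Y : ℤ) - T.dim (W.prod X Y) = j + l - T.dim X := by
    rw [hT.dim_prod]; push_cast; ring
  rwa [e] at h

theorem Laws.cl_act {X Y : W.Obj} (γ : T.C.R (W.prod X Y)) (z : T.C.R X) :
    T.cls (T.C.act γ z) = T.H.act (T.cls γ) (T.cls z) := by
  have h1 : T.cls (T.C.mul (T.C.pb (W.fst X Y) z) γ) =
      T.H.mul (T.cls (T.C.pb (W.fst X Y) z)) (T.cls γ) := map_mul (T.cl (W.prod X Y)) _ _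
  unfold Gysin.act
  rw [hT.class_laws.push, h1, hT.class_laws.pull]

theorem Laws.coh_act_mem {X Y : W.Obj} {l m : ℤ} {γ : T.C.R (W.prod X Y)}
    (hγ : T.InCH (W.prod X Y) l γ) {α : T.H.R X} (hα : T.InCoh X m α) :
    T.InCoh Y (m + 2 * l - 2 * T.dim X) (T.H.act (T.cls γ) α) := by
  have h := hT.coh.push _ _ (W.snd X Y) _ _
    (hT.coh.mul _ _ _ _ _ (hT.coh.pull _ _ (W.fst X Y) _ _ hα) (hT.class_laws.deg _ _ _ hγ))
  have e : m + 2 * l + 2 * (T.dim Y : ℤ) - 2 * T.dim (W.prod X Y) = m + 2 * l - 2 * T.dim X := by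
    rw [hT.dim_prod]; push_cast; ring
  rwa [e] at h

theorem Laws.act_comp {X Y Z : W.Obj} (γ : T.C.R (W.prod X Y)) (δ : T.C.R (W.prod Y Z))
    (z : T.C.R X) : T.C.act (T.C.comp γ δ) z = T.C.act δ (T.C.act γ z) :=
  hT.chow.laws.act_comp γ δ (fun _ => hT.chow.comm _ _ _) (fun _ => hT.chow.comm _ _ _) z

theorem Laws.cl_comp {X Y Z : W.Obj} (γ : T.C.R (W.prod X Y)) (δ : T.C.R (W.prod Y Z)) :
    T.cls (T.C.comp γ δ) = T.H.comp (T.cls γ) (T.cls δ) := by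
  have h1 : T.cls (T.C.mul (T.C.pb (W.p12 X Y Z) γ) (T.C.pb (W.p23 X Y Z) δ)) =
      T.H.mul (T.cls (T.C.pb (W.p12 X Y Z) γ)) (T.cls (T.C.pb (W.p23 X Y Z) δ)) :=
    map_mul (T.cl _) _ _
  unfold Gysin.comp
  rw [hT.class_laws.push, h1, hT.class_laws.pull, hT.class_laws.pull]

theorem Laws.coh_act_comp {X Y Z : W.Obj} (γ : T.C.R (W.prod X Y)) (δ : T.C.R (W.prod Y Z))
    (α : T.H.R X) :
    T.H.act (T.cls (T.C.comp γ δ)) α = T.H.act (T.cls δ) (T.H.act (T.cls γ) α) := by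
  rw [hT.cl_comp]
  refine hT.coh.laws.act_comp _ _ (fun b => (hT.class_laws.central _ _ _).symm) (fun b => ?_) α
  have h1 := hT.class_laws.pull _ _ (W.p23 X Y Z) δ
  have h2 : T.H.pull (W.p23 X Y Z) (T.cls δ) = T.cls (T.C.pb (W.p23 X Y Z) δ) := h1.symm
  rw [h2]
  exact (hT.class_laws.central _ _ _).symm

theorem Laws.comp_mem {X Y Z : W.Obj} {l m : ℤ} {γ : T.C.R (W.prod X Y)}
    {δ : T.C.R (W.prod Y Z)} (hγ : T.InCH (W.prod X Y) l γ) (hδ : T.InCH (W.prod Y Z) m δ) :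
    T.InCH (W.prod X Z) (l + m - T.dim Y) (T.C.comp γ δ) := by
  have h := hT.chow.push _ _ (W.p13 X Y Z) _ _
    (hT.chow.mul _ _ _ _ _
      (hT.chow.pull _ _ (W.p12 X Y Z) _ _ hγ) (hT.chow.pull _ _ (W.p23 X Y Z) _ _ hδ))
  have e : l + m + (T.dim (W.prod X Z) : ℤ) - T.dim (W.prod (W.prod X Y) Z) =
      l + m - T.dim Y := by
    rw [hT.dim_prod, hT.dim_prod, hT.dim_prod]; push_cast; ring
  rwa [e] at h

theorem Laws.graph_mem {X Y : W.Obj} (f : W.Hom X Y) :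
    T.InCH (W.prod Y X) (T.dim Y) (T.C.graph f) := by
  have h := hT.chow.push _ _ (W.lift f (W.id X)) _ _ (hT.chow.one X)
  have e : 0 + (T.dim (W.prod Y X) : ℤ) - T.dim X = T.dim Y := by
    rw [hT.dim_prod]; push_cast; ring
  rwa [e] at h

theorem Laws.cl_graph {X Y : W.Obj} (f : W.Hom X Y) : T.cls (T.C.graph f) = T.H.graph f := by
  unfold Gysin.graph
  rw [hT.class_laws.push]
  have h1 : T.cls (1 : T.C.R X) = 1 := map_one (T.cl X)
  rw [h1]

theorem cls_zero_act {X Y : W.Obj} (γ : T.C.R (W.prod X Y)) :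
    T.H.act (T.cls γ) 0 = 0 := Gysin.act_zero _

theorem Laws.act_hom {X Y : W.Obj} {l j : ℤ} {γ : T.C.R (W.prod X Y)}
    (hγ : T.InCH (W.prod X Y) l γ) {z : T.C.R X} (hz : T.InHom X j z) :
    T.InHom Y (j + l - T.dim X) (T.C.act γ z) := by
  refine ⟨hT.act_mem hγ hz.1, ?_⟩
  rw [hT.cl_act, hz.2, Gysin.act_zero]

theorem Laws.act_kerAJ {X Y : W.Obj} {l j : ℤ} {γ : T.C.R (W.prod X Y)}
    (hγ : T.InCH (W.prod X Y) l γ) {z : T.C.R X} (hz : T.InKerAJ X j z) :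
    T.InKerAJ Y (j + l - T.dim X) (T.C.act γ z) := by
  obtain ⟨φ, hφ, -⟩ := hT.aj_laws.act X Y l j γ hγ
  refine ⟨hT.act_hom hγ hz.1, ?_⟩
  rw [hφ z hz.1, hz.2]
  exact map_zero φ

theorem Laws.graded_zero {X Y : W.Obj} {l j : ℤ} {γ : T.C.R (W.prod X Y)}
    (hγ : T.InCH (W.prod X Y) l γ) (hk : T.Kills γ (2 * j)) {z : T.C.R X}
    (hz : T.InCH X j z) : T.InHom Y (j + l - T.dim X) (T.C.act γ z) := by
  refine ⟨hT.act_mem hγ hz, ?_⟩
  rw [hT.cl_act, hk _ (hT.class_laws.deg _ _ _ hz)]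

theorem Laws.graded_one {X Y : W.Obj} {l j : ℤ} {γ : T.C.R (W.prod X Y)}
    (hγ : T.InCH (W.prod X Y) l γ) (hk : T.Kills γ (2 * j - 1)) {z : T.C.R X}
    (hz : T.InHom X j z) : T.InKerAJ Y (j + l - T.dim X) (T.C.act γ z) := by
  obtain ⟨φ, hφ, h0⟩ := hT.aj_laws.act X Y l j γ hγ
  refine ⟨hT.act_hom hγ hz, ?_⟩
  rw [hφ z hz, h0 hk]

theorem Laws.kills_comp_right {X Y Z : W.Obj} {γ : T.C.R (W.prod X Y)} {m : ℤ}
    (h : T.Kills γ m) (δ : T.C.R (W.prod Y Z)) : T.Kills (T.C.comp γ δ) m := by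
  intro α hα
  rw [hT.coh_act_comp, h α hα, Gysin.act_zero]

theorem Laws.kills_comp_left {X Y Z : W.Obj} {l m : ℤ} {γ : T.C.R (W.prod X Y)}
    (hγ : T.InCH (W.prod X Y) l γ) {δ : T.C.R (W.prod Y Z)}
    (h : T.Kills δ (m + 2 * l - 2 * T.dim X)) : T.Kills (T.C.comp γ δ) m := by
  intro α hα
  rw [hT.coh_act_comp, h _ (hT.coh_act_mem hγ hα)]

theorem Laws.summand_refl (X : W.Obj) : T.Summand X X := by
  refine ⟨T.C.graph (W.id X), T.C.graph (W.id X), hT.graph_mem _, hT.graph_mem _, fun z => ?_⟩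
  rw [hT.chow.laws.act_graph, hT.chow.laws.act_graph, hT.chow.laws.pull_id,
    hT.chow.laws.pull_id]

theorem Laws.summand_trans {X Y Z : W.Obj} (h : T.Summand X Y) (h' : T.Summand Y Z) :
    T.Summand X Z := by
  obtain ⟨a, b, ha, hb, e⟩ := h
  obtain ⟨a', b', ha', hb', e'⟩ := h'
  refine ⟨T.C.comp a a', T.C.comp b' b, ?_, ?_, fun z => ?_⟩
  · have := hT.comp_mem ha ha'
    rwa [add_sub_cancel_right] at this
  · have := hT.comp_mem hb' hb
    rwa [add_sub_cancel_right] at this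
  · rw [hT.act_comp, hT.act_comp, e', e]

/-- a surjective morphism with a multisection makes the target a summand of the source: if
`p : Z → X` and `h ∈ CH^{dim Z - dim X}(Z)` satisfy `p_* h = 1` then `X` is a summand of `Z` -/
theorem Laws.summand_of_push {X Z : W.Obj} (p : W.Hom Z X) (h : T.C.R Z)
    (hh : T.InCH Z (T.dim Z - T.dim X) h) (e : T.C.pf p h = 1) : T.Summand X Z := by
  refine ⟨T.C.graph p, T.C.pf (W.lift (W.id Z) p) h, hT.graph_mem p, ?_, fun z => ?_⟩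
  · have h1 := hT.chow.push _ _ (W.lift (W.id Z) p) _ _ hh
    have e1 : (T.dim Z : ℤ) - T.dim X + T.dim (W.prod Z X) - T.dim Z = T.dim Z := by
      rw [hT.dim_prod]; push_cast; ring
    rwa [e1] at h1
  · rw [hT.chow.laws.act_graph, Gysin.act_apply]
    have e2 : T.C.pf (W.lift (W.id Z) p) h = T.C.push (W.lift (W.id Z) p) h := rfl
    have e3 : T.C.push p h = 1 := e
    rw [e2, ← hT.chow.laws.projection, ← hT.chow.laws.push_comp, ← hT.chow.laws.pull_comp,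
      W.lift_fst, W.lift_snd, hT.chow.laws.pull_id, hT.chow.laws.projection, e3, mul_one]

end ChowTheory

end

end Pool.Agent.H23BB
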