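import Pool.Agent.H23BB.Local

set_option autoImplicit false

/-!
The set of all Bloch-Beilinson filtrations: smallest and largest element, and uniqueness.
-/

universe w u v

namespace Pool.Agent.H23BB

noncomputable section

variable {W : Geo.{w, u}}

namespace ChowTheory

/-- `Fwd T S ν X j w μ Y i w'`: from the class `w ∈ CH^j(X)`, placed at the level `ν`, one reaches
the class `w' ∈ CH^i(Y)` at the level `μ` by applying successively correspondences between objects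
of `S`; a correspondence applied to a class in `CH^k` at the level `κ` raises the level by one if
it acts as zero on `H^{2k-κ}`, and may be applied without raising the level in any case. -/
inductive Fwd (T : ChowTheory.{w, u, v} W) (S : Set W.Obj) (ν : ℕ) (X : W.Obj) (j : ℤ)
    (w : T.C.R X) : ℕ → ∀ Y : W.Obj, ℤ → T.C.R Y → Prop
  | refl : Fwd T S ν X j w ν X j w
  | keep (Y Z : W.Obj) (μ : ℕ) (i l : ℤ) (γ : T.C.R (W.prod Y Z)) (z : T.C.R Y) : Z ∈ S →
      T.InCH (W.prod Y Z) l γ → Fwd T S ν X j w μ Y i z →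
      Fwd T S ν X j w μ Z (i + l - T.dim Y) (T.C.act γ z)
  | up (Y Z : W.Obj) (μ : ℕ) (i l : ℤ) (γ : T.C.R (W.prod Y Z)) (z : T.C.R Y) : Z ∈ S →
      T.InCH (W.prod Y Z) l γ → T.Kills γ (2 * i - μ) → Fwd T S ν X j w μ Y i z →
      Fwd T S ν X j w (μ + 1) Z (i + l - T.dim Y) (T.C.act γ z)

variable {T : ChowTheory.{w, u, v} W}

theorem Fwd.mem {S : Set W.Obj} {ν μ : ℕ} {X Y : W.Obj} {j i : ℤ} {w : T.C.R X} {w' : T.C.R Y}
    (h : Fwd T S ν X j w μ Y i w') (hX : X ∈ S) : Y ∈ S := by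
  cases h with
  | refl => exact hX
  | keep _ _ _ _ _ _ _ h => exact h
  | up _ _ _ _ _ _ _ h => exact h

theorem Fwd.trans {S : Set W.Obj} {ν μ κ : ℕ} {X Y Z : W.Obj} {j i k : ℤ} {a : T.C.R X}
    {b : T.C.R Y} {c : T.C.R Z} (h : Fwd T S ν X j a μ Y i b) (h' : Fwd T S μ Y i b κ Z k c) :
    Fwd T S ν X j a κ Z k c := by
  induction h' with
  | refl => exact h
  | keep Y' Z' μ' i' l' γ z hZ hγ _ ih => exact Fwd.keep _ _ _ _ _ _ _ hZ hγ ih
  | up Y' Z' μ' i' l' γ z hZ hγ hk _ ih => exact Fwd.up _ _ _ _ _ _ _ hZ hγ hk ih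

theorem Fwd.lin {S : Set W.Obj} {ν μ : ℕ} {X Y : W.Obj} {j i : ℤ} {w : T.C.R X} {w' : T.C.R Y}
    (h : Fwd T S ν X j w μ Y i w') : ∃ φ : T.C.R X →ₗ[ℚ] T.C.R Y, φ w = w' ∧
      ∀ z : T.C.R X, Fwd T S ν X j z μ Y i (φ z) := by
  induction h with
  | refl => exact ⟨LinearMap.id, rfl, fun z => Fwd.refl⟩
  | keep Y Z μ i l γ z hZ hγ _ ih =>
    obtain ⟨φ, h1, h2⟩ := ih
    exact ⟨(T.C.actL γ).comp φ, by rw [LinearMap.comp_apply, h1, Gysin.actL_apply],
      fun z => Fwd.keep _ _ _ _ _ _ _ hZ hγ (h2 z)⟩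
  | up Y Z μ i l γ z hZ hγ hk _ ih =>
    obtain ⟨φ, h1, h2⟩ := ih
    exact ⟨(T.C.actL γ).comp φ, by rw [LinearMap.comp_apply, h1, Gysin.actL_apply],
      fun z => Fwd.up _ _ _ _ _ _ _ hZ hγ hk (h2 z)⟩

/-- the class `w ∈ CH^j(X)`, placed at the level `ν`, is in the kernel of the Abel-Jacobi map, and
all classes reached from it in some `CH^i(Y)` at a level `μ ≥ i + 1` are zero -/
def InHigh (T : ChowTheory.{w, u, v} W) (S : Set W.Obj) (X : W.Obj) (j : ℤ) (ν : ℕ)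
    (w : T.C.R X) : Prop :=
  T.InKerAJ X j w ∧ ∀ (μ : ℕ) (Y : W.Obj) (i : ℤ) (w' : T.C.R Y),
    Fwd T S ν X j w μ Y i w' → i + 1 ≤ μ → w' = 0

theorem InHigh.add {S : Set W.Obj} {X : W.Obj} {j : ℤ} {ν : ℕ} {a b : T.C.R X}
    (ha : T.InHigh S X j ν a) (hb : T.InHigh S X j ν b) : T.InHigh S X j ν (a + b) := by
  refine ⟨mem_kerAJ.1 (add_mem (mem_kerAJ.2 ha.1) (mem_kerAJ.2 hb.1)), fun μ Y i w' h hi => ?_⟩
  obtain ⟨φ, h1, h2⟩ := h.lin
  rw [← h1, map_add, ha.2 μ Y i _ (h2 a) hi, hb.2 μ Y i _ (h2 b) hi, add_zero]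

theorem InHigh.zero (S : Set W.Obj) (X : W.Obj) (j : ℤ) (ν : ℕ) :
    T.InHigh S X j ν 0 := by
  refine ⟨mem_kerAJ.1 (zero_mem _), fun μ Y i w' h hi => ?_⟩
  obtain ⟨φ, h1, h2⟩ := h.lin
  rw [← h1, map_zero]

theorem InHigh.smul {S : Set W.Obj} {X : W.Obj} {j : ℤ} {ν : ℕ} (c : ℚ) {a : T.C.R X}
    (ha : T.InHigh S X j ν a) : T.InHigh S X j ν (c • a) := by
  refine ⟨mem_kerAJ.1 (Submodule.smul_mem _ _ (mem_kerAJ.2 ha.1)), fun μ Y i w' h hi => ?_⟩
  obtain ⟨φ, h1, h2⟩ := h.lin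
  rw [← h1, map_smul, ha.2 μ Y i _ (h2 a) hi, smul_zero]

/-- the subspace of all classes with `InHigh` -/
def highPart (T : ChowTheory.{w, u, v} W) (S : Set W.Obj) (X : W.Obj) (j : ℤ) (ν : ℕ) :
    T.C.Sub X where
  carrier := {w | T.InHigh S X j ν w}
  add_mem' := InHigh.add
  zero_mem' := InHigh.zero S X j ν
  smul_mem' := fun c _ h => InHigh.smul c h

/-- the largest possible filtration -/
def high (T : ChowTheory.{w, u, v} W) (S : Set W.Obj) (X : W.Obj) (j : ℤ) : ℕ → T.C.Sub X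
  | 0 => T.CH X j
  | 1 => T.hom X j
  | (ν + 2) => T.highPart S X j (ν + 2)

/-- One-sided Kuenneth classes for `S`: for `X ∈ S` and `2 ≤ ν < j` there is a self-correspondence
of degree zero which is the identity on `H^{2j-ν}(X)` and zero on `H^{2j-μ}(X)`, `ν < μ ≤ j`. -/
def Kuenneth (T : ChowTheory.{w, u, v} W) (S : Set W.Obj) : Prop :=
  ∀ X ∈ S, ∀ (j ν : ℕ), 2 ≤ ν → ν < j → ∃ P : T.C.R (W.prod X X),
    T.InCH (W.prod X X) (T.dim X) P ∧
    (∀ α : T.H.R X, T.InCoh X (2 * j - ν) α → T.H.act (T.cls P) α = α) ∧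
    ∀ μ : ℕ, ν < μ → μ ≤ j → T.Kills P (2 * j - μ)

theorem IsBB.le_of_le {S : Set W.Obj} {F : T.Filt} (hF : T.IsBB S F) {X : W.Obj} (hX : X ∈ S)
    (j : ℤ) {ν μ : ℕ} (h : ν ≤ μ) {z : T.C.R X} (hz : InF F X j μ z) : InF F X j ν z := by
  induction μ, h using Nat.le_induction with
  | base => exact hz
  | succ μ _ ih => exact ih ((hF.cond1 X hX j).anti μ z hz)

theorem IsBB.fwd {S : Set W.Obj} {F : T.Filt} (hF : T.IsBB S F)
    {ν μ : ℕ} {X Y : W.Obj} {j i : ℤ} {w : T.C.R X} {w' : T.C.R Y}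
    (h : Fwd T S ν X j w μ Y i w') (hX : X ∈ S) (hw : InF F X j ν w) : InF F Y i μ w' := by
  induction h with
  | refl => exact hw
  | keep Y Z μ i l γ z hZ hγ h' ih => exact hF.cond3 Y (h'.mem hX) Z hZ l i μ γ z hγ ih
  | up Y Z μ i l γ z hZ hγ hk h' ih => exact hF.cond4 Y (h'.mem hX) Z hZ l i μ γ z hγ hk ih

variable (hT : T.Laws)

include hT

theorem Laws.eq_zero {S : Set W.Obj} {F : T.Filt} (hF : T.IsBB S F) {X : W.Obj} (hX : X ∈ S)
    {j : ℤ} {ν : ℕ} (h : j + 1 ≤ ν) {z : T.C.R X} (hz : InF F X j ν z) : z = 0 := by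
  rcases lt_or_ge j 0 with hj | hj
  · have h1 := ((hF.cond1 X hX j).zero z).1 (hF.le_of_le hX j (Nat.zero_le _) hz)
    exact hT.chow.neg X j z h1 hj
  · obtain ⟨k, rfl⟩ := Int.eq_ofNat_of_zero_le hj
    exact hF.cond2 X hX k z (hF.le_of_le hX k (by exact_mod_cast h) hz)

theorem Laws.low_isBB {S : Set W.Obj} (h : ∃ F, T.IsBB S F) : T.IsBB S (T.low S) :=
  hT.low_isBB' S ((hT.exists_iff_reach S).1 h)

theorem Laws.le_high {S : Set W.Obj} {F : T.Filt} (hF : T.IsBB S F)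
    (X : W.Obj) (hX : X ∈ S) (j : ℤ) (ν : ℕ) (z : T.C.R X) (hz : z ∈ F X j ν) :
    z ∈ T.high S X j ν := by
  match ν with
  | 0 => exact ((hF.cond1 X hX j).zero z).1 hz
  | 1 => exact mem_hom.2 (((hF.cond1 X hX j).one z).1 hz)
  | ν + 2 =>
    refine ⟨((hF.cond1 X hX j).two z).1 (hF.le_of_le hX j (by omega) hz),
      fun μ Y i w' h hi => ?_⟩
    exact hT.eq_zero hF (h.mem hX) hi (hF.fwd h hX hz)

theorem Laws.high_isBB {S : Set W.Obj} (h : ∃ F, T.IsBB S F) : T.IsBB S (T.high S) := by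
  obtain ⟨F, hF⟩ := h
  have two : ∀ X ∈ S, ∀ (j : ℤ) (z : T.C.R X), z ∈ T.high S X j 2 ↔ T.InKerAJ X j z := by
    intro X hX j z
    refine ⟨fun w => w.1, fun hz => hT.le_high hF X hX j 2 z ?_⟩
    exact ((hF.cond1 X hX j).two z).2 hz
  refine ⟨fun X hX j => ⟨?_, fun z => Iff.rfl, fun z => mem_hom, fun z => two X hX j z⟩,
    ?_, ?_, ?_⟩
  · intro ν z hz
    match ν, hz with
    | 0, hz => exact (mem_hom.1 hz).1
    | 1, hz => exact mem_hom.2 ((two X hX j z).1 hz).1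
    | ν + 2, hz =>
      refine ⟨hz.1, fun μ Y i w' h hi => ?_⟩
      -- a walk starting one level lower ends at least as low
      have key : ∀ {μ : ℕ} {Y : W.Obj} {i : ℤ} {w' : T.C.R Y}, Fwd T S (ν + 2) X j z μ Y i w' →
          Fwd T S (ν + 2 + 1) X j z μ Y i w' ∨ Fwd T S (ν + 2 + 1) X j z (μ + 1) Y i w' := by
        intro μ Y i w' h
        induction h with
        | refl => exact Or.inr Fwd.refl
        | keep Y Z μ i l γ z hZ hγ _ ih =>
          rcases ih with ih | ih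
          · exact Or.inl (Fwd.keep _ _ _ _ _ _ _ hZ hγ ih)
          · exact Or.inr (Fwd.keep _ _ _ _ _ _ _ hZ hγ ih)
        | up Y Z μ i l γ z hZ hγ hk _ ih =>
          rcases ih with ih | ih
          · exact Or.inl (Fwd.up _ _ _ _ _ _ _ hZ hγ hk ih)
          · exact Or.inl (Fwd.keep _ _ _ _ _ _ _ hZ hγ ih)
      rcases key h with h | h
      · exact hz.2 _ _ _ _ h hi
      · exact hz.2 _ _ _ _ h (by push_cast; omega)
  · intro X hX j z hz
    match j with
    | 0 => exact hT.class_laws.inj X z (mem_hom.1 hz)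
    | 1 => exact hT.aj_laws.inj X z ((two X hX _ z).1 hz)
    | j + 2 => exact hz.2 _ _ _ _ Fwd.refl (by push_cast; omega)
  · intro X hX Y hY l j ν γ z hγ hz
    match ν, hz with
    | 0, hz => exact hT.act_mem hγ hz
    | 1, hz => exact mem_hom.2 (hT.act_hom hγ (mem_hom.1 hz))
    | ν + 2, hz =>
      exact ⟨hT.act_kerAJ hγ hz.1, fun μ Z i w' h hi =>
        hz.2 _ _ _ _ ((Fwd.keep X Y (ν + 2) j l γ z hY hγ Fwd.refl).trans h) hi⟩
  · intro X hX Y hY l j ν γ z hγ hk hz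
    match ν, hz, hk with
    | 0, hz, hk => exact mem_hom.2 (hT.graded_zero hγ (by simpa using hk) hz)
    | 1, hz, hk =>
      exact (two Y hY _ _).2 (hT.graded_one hγ (by simpa using hk) (mem_hom.1 hz))
    | ν + 2, hz, hk =>
      exact ⟨hT.act_kerAJ hγ hz.1, fun μ Z i w' h hi =>
        hz.2 _ _ _ _ ((Fwd.up X Y (ν + 2) j l γ z hY hγ hk Fwd.refl).trans h) hi⟩

theorem Laws.kills_one_sub {X : W.Obj} (P : T.C.R (W.prod X X)) (m : ℤ)
    (h : ∀ α : T.H.R X, T.InCoh X m α → T.H.act (T.cls P) α = α) :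
    T.Kills (T.C.graph (W.id X) - P) m := by
  intro α hα
  have e : T.H.act (T.cls (T.C.graph (W.id X) - P)) α =
      T.H.act (T.cls (T.C.graph (W.id X))) α - T.H.act (T.cls P) α := by
    have h1 : T.cls (T.C.graph (W.id X) - P) = T.cls (T.C.graph (W.id X)) - T.cls P :=
      map_sub (T.cl _) _ _
    rw [h1, Gysin.act_apply, Gysin.act_apply, Gysin.act_apply, mul_sub, map_sub]
  rw [e, h α hα, hT.cl_graph, hT.coh.laws.act_graph, hT.coh.laws.pull_id, sub_self]

omit hT in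
theorem act_sub (X : W.Obj) (P Q : T.C.R (W.prod X X)) (z : T.C.R X) :
    T.C.act (P - Q) z = T.C.act P z - T.C.act Q z := by
  rw [Gysin.act_apply, Gysin.act_apply, Gysin.act_apply, mul_sub, map_sub]

theorem Laws.unique_of_kuenneth {S : Set W.Obj} (hK : T.Kuenneth S)
    {F : T.Filt} (hF : T.IsBB S F) :
    ∀ (ν : ℕ), ∀ X ∈ S, ∀ j : ℤ, F X j ν = T.low S X j ν := by
  have hlow := hT.low_isBB ⟨F, hF⟩
  intro ν
  induction ν with
  | zero =>
    intro X hX j
    exact Submodule.ext fun z => (hF.cond1 X hX j).zero z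
  | succ ν ih =>
    intro X hX j
    rcases Nat.lt_or_ge ν 2 with h2 | h2
    · interval_cases ν
      · exact Submodule.ext fun z => ((hF.cond1 X hX j).one z).trans mem_hom.symm
      · exact Submodule.ext fun z => ((hF.cond1 X hX j).two z).trans (hT.low_two S X j z).symm
    rcases lt_or_ge (ν : ℤ) j with hj | hj
    swap
    · refine Submodule.ext fun z => ⟨fun hz => ?_, fun hz => ?_⟩
      · rw [hT.eq_zero hF hX (by push_cast; omega) hz]; exact zero_mem _
      · rw [hT.eq_zero hlow hX (by push_cast; omega) hz]; exact zero_mem _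
    obtain ⟨k, rfl⟩ := Int.eq_ofNat_of_zero_le (show (0 : ℤ) ≤ j by omega)
    have hk : ν < k := by exact_mod_cast hj
    obtain ⟨P, hP, hid, hkill⟩ := hK X hX k ν h2 hk
    refine le_antisymm ?_ (fun z hz => low_le hF.isPre X hX _ _ z hz)
    have d : (k : ℤ) + T.dim X - T.dim X = k := by ring
    -- `(1 - P) z` lies in `low (ν + 1)` for `z ∈ F ν`
    have h1 : ∀ z ∈ F X k ν, z - T.C.act P z ∈ T.low S X k (ν + 1) := by
      intro z hz
      rw [ih X hX k] at hz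
      have h3 := hT.low_graded S hX (l := T.dim X) (γ := T.C.graph (W.id X) - P)
        (InCH.sub (hT.graph_mem (W.id X)) hP) (hT.kills_one_sub P _ hid) hz
      rw [act_sub, hT.chow.laws.act_graph, hT.chow.laws.pull_id, d] at h3
      exact h3
    -- descending induction
    have h4 : ∀ (n μ : ℕ), μ + n = k + 1 → ν + 1 ≤ μ → F X k μ ≤ T.low S X k (ν + 1) := by
      intro n
      induction n with
      | zero =>
        intro μ hμ _ z hz
        rw [hT.eq_zero hF hX (by push_cast; omega) hz]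
        exact zero_mem _
      | succ n ihn =>
        intro μ hμ hνμ z hz
        have h5 := h1 z (hF.le_of_le hX _ (by omega) hz)
        have h6 : T.C.act P z ∈ F X (k + T.dim X - T.dim X) (μ + 1) :=
          hF.cond4 X hX X hX (T.dim X) k μ P z hP (hkill μ (by omega) (by omega)) hz
        rw [d] at h6
        have h7 := ihn (μ + 1) (by omega) (by omega) h6
        have := Submodule.add_mem _ h5 h7
        rwa [sub_add_cancel] at this
    exact h4 (k - ν) (ν + 1) (by omega) le_rfl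

end ChowTheory

end

end Pool.Agent.H23BB
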