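import Pool.Agent.H23BB.Basic

set_option autoImplicit false

/-!
Bloch-Beilinson filtrations: the simultaneous existence for all objects is equivalent to the
existence for every single object and its self-correspondences, and to an explicit vanishing.
-/

universe w u v

namespace Pool.Agent.H23BB

noncomputable section

variable {W : Geo.{w, u}}

namespace ChowTheory

/-- `Reach T S ν X j w`: the class `w ∈ CH^j(X)` is obtained from a class in the kernel of an
Abel-Jacobi map by applying successively correspondences `γ_2, …, γ_{ν-1}`, where `γ_μ` starts in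
`CH^{j_μ}` of an object of `S` and acts as zero on its `H^{2 j_μ - μ}`. -/
inductive Reach (T : ChowTheory.{w, u, v} W) (S : Set W.Obj) :
    ℕ → ∀ X : W.Obj, ℤ → T.C.R X → Prop
  | base (X : W.Obj) (j : ℤ) (z : T.C.R X) : T.InKerAJ X j z → Reach T S 2 X j z
  | step (Y X : W.Obj) (ν : ℕ) (i l : ℤ) (γ : T.C.R (W.prod Y X)) (z : T.C.R Y) : Y ∈ S →
      T.InCH (W.prod Y X) l γ → T.Kills γ (2 * i - ν) → Reach T S ν Y i z →
      Reach T S (ν + 1) X (i + l - T.dim Y) (T.C.act γ z)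

variable {T : ChowTheory.{w, u, v} W}

theorem Reach.two_le {S : Set W.Obj} {ν : ℕ} {X : W.Obj} {j : ℤ} {w : T.C.R X}
    (h : Reach T S ν X j w) : 2 ≤ ν := by
  induction h with
  | base => exact le_rfl
  | step _ _ _ _ _ _ _ _ _ _ _ ih => omega

/-- the smallest possible filtration -/
def low (T : ChowTheory.{w, u, v} W) (S : Set W.Obj) (X : W.Obj) (j : ℤ) : ℕ → T.C.Sub X
  | 0 => T.CH X j
  | 1 => T.hom X j
  | (ν + 2) => Submodule.span ℚ {w | Reach T S (ν + 2) X j w}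

theorem low_anti_step {S : Set W.Obj} {X : W.Obj} {j : ℤ} {ν : ℕ} {z : T.C.R X}
    (hz : z ∈ T.low S X j (ν + 2)) {M : T.C.Sub X}
    (h : ∀ w, Reach T S (ν + 2) X j w → w ∈ M) : z ∈ M := by
  have : T.low S X j (ν + 2) ≤ M := Submodule.span_le.2 (fun w hw => h w hw)
  exact this hz

variable (hT : T.Laws)

include hT

theorem Laws.reach_kerAJ {S : Set W.Obj} {ν : ℕ} {X : W.Obj} {j : ℤ} {w : T.C.R X}
    (h : Reach T S ν X j w) : T.InKerAJ X j w := by
  induction h with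
  | base X j z hz => exact hz
  | step Y X ν i l γ z _ hγ _ _ ih => exact hT.act_kerAJ hγ ih

theorem Laws.reach_corr {S : Set W.Obj} {ν : ℕ} {X : W.Obj} {j : ℤ} {w : T.C.R X}
    (h : Reach T S ν X j w) {Y : W.Obj} {l : ℤ} {γ : T.C.R (W.prod X Y)}
    (hγ : T.InCH (W.prod X Y) l γ) :
    Reach T S ν Y (j + l - T.dim X) (T.C.act γ w) := by
  cases h with
  | base _ _ _ hz => exact Reach.base _ _ _ (hT.act_kerAJ hγ hz)
  | step Y' _ ν i m δ z hY' hδ hk hz =>
    have h1 := Reach.step Y' Y ν i _ (T.C.comp δ γ) z hY' (hT.comp_mem hδ hγ)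
      (hT.kills_comp_right hk γ) hz
    rw [hT.act_comp] at h1
    have e : i + (m + l - (T.dim X : ℤ)) - T.dim Y' = i + m - T.dim Y' + l - T.dim X := by ring
    rwa [e] at h1

theorem Laws.low_two (S : Set W.Obj) (X : W.Obj) (j : ℤ) (z : T.C.R X) :
    z ∈ T.low S X j 2 ↔ T.InKerAJ X j z := by
  constructor
  · intro h
    rw [← mem_kerAJ]
    exact low_anti_step h (fun w hw => mem_kerAJ.2 (hT.reach_kerAJ hw))
  · intro h
    exact Submodule.subset_span (Reach.base _ _ _ h)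

theorem Laws.low_corr (S : Set W.Obj) {X Y : W.Obj} {l j : ℤ} {ν : ℕ} {γ : T.C.R (W.prod X Y)}
    (hγ : T.InCH (W.prod X Y) l γ) {z : T.C.R X} (hz : z ∈ T.low S X j ν) :
    T.C.act γ z ∈ T.low S Y (j + l - T.dim X) ν := by
  match ν, hz with
  | 0, hz => exact hT.act_mem hγ hz
  | 1, hz => exact mem_hom.2 (hT.act_hom hγ (mem_hom.1 hz))
  | ν + 2, hz =>
    exact low_anti_step (M := (T.low S Y (j + l - T.dim X) (ν + 2)).comap (T.C.actL γ)) hz
      (fun w hw => Submodule.subset_span (hT.reach_corr hw hγ))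

theorem Laws.low_graded (S : Set W.Obj) {X Y : W.Obj} (hX : X ∈ S) {l j : ℤ} {ν : ℕ}
    {γ : T.C.R (W.prod X Y)} (hγ : T.InCH (W.prod X Y) l γ) (hk : T.Kills γ (2 * j - ν))
    {z : T.C.R X} (hz : z ∈ T.low S X j ν) :
    T.C.act γ z ∈ T.low S Y (j + l - T.dim X) (ν + 1) := by
  match ν, hz, hk with
  | 0, hz, hk => exact mem_hom.2 (hT.graded_zero hγ (by simpa using hk) hz)
  | 1, hz, hk =>
    rw [hT.low_two]
    exact hT.graded_one hγ (by simpa using hk) (mem_hom.1 hz)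
  | ν + 2, hz, hk =>
    exact low_anti_step (M := (T.low S Y (j + l - T.dim X) (ν + 2 + 1)).comap (T.C.actL γ)) hz
      (fun w hw => Submodule.subset_span (Reach.step X Y (ν + 2) j l γ w hX hγ hk hw))

theorem Laws.low_anti (S : Set W.Obj) (X : W.Obj) (j : ℤ) (ν : ℕ) (z : T.C.R X)
    (hz : z ∈ T.low S X j (ν + 1)) : z ∈ T.low S X j ν := by
  match ν with
  | 0 => exact (mem_hom.1 hz).1
  | 1 => exact mem_hom.2 ((hT.low_two _ _ _ _).1 hz).1
  | ν + 2 =>
    refine low_anti_step hz (fun w hw => Submodule.subset_span ?_)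
    cases hw with
    | step Y _ _ i l γ z' hY hγ hk hz' => exact hT.reach_corr hz' hγ

theorem Laws.low_isPre (S : Set W.Obj) : T.IsPre S (T.low S) :=
  ⟨fun X _ j => ⟨fun ν z hz => hT.low_anti S X j ν z hz, fun z => Iff.rfl,
    fun z => mem_hom, fun z => hT.low_two S X j z⟩,
    fun X _ Y _ l j ν γ z hγ hz => hT.low_corr S hγ hz,
    fun X hX Y _ l j ν γ z hγ hk hz => hT.low_graded S hX hγ hk hz⟩

theorem Laws.low_cond2 (S : Set W.Obj)
    (h : ∀ X ∈ S, ∀ j : ℕ, 2 ≤ j → ∀ w, Reach T S (j + 1) X j w → w = 0) :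
    ∀ X ∈ S, T.Cond2 (T.low S) X := by
  intro X hX j z hz
  match j with
  | 0 => exact hT.class_laws.inj X z (mem_hom.1 hz)
  | 1 => exact hT.aj_laws.inj X z ((hT.low_two _ _ _ _).1 hz)
  | j + 2 =>
    have := low_anti_step (ν := j + 1) (M := (⊥ : T.C.Sub X)) hz (fun w hw => by
      rw [h X hX (j + 2) (by omega) w hw]; exact Submodule.zero_mem _)
    exact (Submodule.mem_bot ℚ).1 this

theorem Laws.low_isBB' (S : Set W.Obj)
    (h : ∀ X ∈ S, ∀ j : ℕ, 2 ≤ j → ∀ w, Reach T S (j + 1) X j w → w = 0) :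
    T.IsBB S (T.low S) :=
  ⟨(hT.low_isPre S).cond1, hT.low_cond2 S h, (hT.low_isPre S).cond3, (hT.low_isPre S).cond4⟩

omit hT in
theorem IsBB.isPre {S : Set W.Obj} {F : T.Filt} (hF : T.IsBB S F) : T.IsPre S F :=
  ⟨hF.cond1, hF.cond3, hF.cond4⟩

omit hT in
theorem reach_mem {S : Set W.Obj} {F : T.Filt} (hF : T.IsPre S F)
    {ν : ℕ} {X : W.Obj} {j : ℤ} {w : T.C.R X} (h : Reach T S ν X j w) (hX : X ∈ S) :
    InF F X j ν w := by
  induction h with
  | base X j z hz => exact ((hF.cond1 X hX j).two z).2 hz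
  | step Y X ν i l γ z hY hγ hk _ ih => exact hF.cond4 Y hY X hX l i ν γ z hγ hk (ih hY)

omit hT in
theorem low_le {S : Set W.Obj} {F : T.Filt} (hF : T.IsPre S F)
    (X : W.Obj) (hX : X ∈ S) (j : ℤ) (ν : ℕ) (z : T.C.R X) (hz : z ∈ T.low S X j ν) :
    z ∈ F X j ν := by
  match ν with
  | 0 => exact ((hF.cond1 X hX j).zero z).2 hz
  | 1 => exact ((hF.cond1 X hX j).one z).2 (mem_hom.1 hz)
  | ν + 2 => exact low_anti_step hz (fun w hw => reach_mem hF hw hX)

/-- A Bloch-Beilinson filtration on `S` exists if and only if all iterated composites vanish in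
the expected degree. -/
theorem Laws.exists_iff_reach (S : Set W.Obj) :
    (∃ F, T.IsBB S F) ↔ ∀ X ∈ S, ∀ j : ℕ, 2 ≤ j → ∀ w, Reach T S (j + 1) X j w → w = 0 := by
  constructor
  · rintro ⟨F, hF⟩ X hX j _ w hw
    exact hF.cond2 X hX j w (reach_mem hF.isPre hw hX)
  · intro h
    exact ⟨_, hT.low_isBB' S h⟩

theorem Laws.exists_iff_low (S : Set W.Obj) :
    (∃ F, T.IsBB S F) ↔ ∀ X ∈ S, T.Cond2 (T.low S) X := by
  constructor
  · intro h
    exact hT.low_cond2 S ((hT.exists_iff_reach S).1 h)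
  · intro h
    exact ⟨T.low S, (hT.low_isPre S).cond1, h, (hT.low_isPre S).cond3, (hT.low_isPre S).cond4⟩

/-- An iterated composite over `S` can be realised with self-correspondences of any object which
has a certain object `Z` of `K` as a summand. -/
theorem Laws.reach_lift {S K : Set W.Obj}
    (hK : ∀ X ∈ S, ∀ Y ∈ S, ∃ Z ∈ K, T.Summand X Z ∧ T.Summand Y Z) (hKS : K ⊆ S)
    {ν : ℕ} {X : W.Obj} {j : ℤ} {w : T.C.R X} (h : Reach T S ν X j w) (hX : X ∈ S) :
    ∃ Z ∈ K, T.Summand X Z ∧ ∀ Z' : W.Obj, T.Summand Z Z' → ∀ (l : ℤ)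
      (δ : T.C.R (W.prod X Z')), T.InCH (W.prod X Z') l δ →
        Reach T {Z'} ν Z' (j + l - T.dim X) (T.C.act δ w) := by
  induction h with
  | base X j z hz =>
    obtain ⟨Z, hZ, h1, -⟩ := hK X hX X hX
    exact ⟨Z, hZ, h1, fun Z' _ l δ hδ => Reach.base _ _ _ (hT.act_kerAJ hδ hz)⟩
  | step Y X ν i l γ z hY hγ hk hz ih =>
    obtain ⟨Z₁, hZ₁, hYZ, h1⟩ := ih hY
    obtain ⟨Z, hZ, h2, h3⟩ := hK Z₁ (hKS hZ₁) X hX
    refine ⟨Z, hZ, h3, fun Z' hZ' m δ hδ => ?_⟩
    have h4 := hT.summand_trans h2 hZ'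
    obtain ⟨a, b, ha, hb, e⟩ := hT.summand_trans hYZ h4
    have h5 := h1 Z' h4 _ _ ha
    rw [add_sub_cancel_right] at h5
    have h6 := Reach.step Z' Z' ν i _ (T.C.comp (T.C.comp b γ) δ) _
      (Set.mem_singleton Z') (hT.comp_mem (hT.comp_mem hb hγ) hδ)
      (hT.kills_comp_right (hT.kills_comp_left hb (by
        have e' : (2 * i - (ν : ℤ)) + 2 * (T.dim Z' : ℤ) - 2 * T.dim Z' = 2 * i - ν := by ring
        rw [e']; exact hk)) δ) h5
    rw [hT.act_comp, hT.act_comp, e] at h6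
    have e2 : i + ((T.dim Z' : ℤ) + l - T.dim Y + m - T.dim X) - T.dim Z' =
        i + l - T.dim Y + m - T.dim X := by ring
    rwa [e2] at h6

/-- **Local criterion.** Let `K ⊆ S` be classes of objects such that any two objects of `S` are
summands of a common object of `K`. Bloch-Beilinson filtrations exist simultaneously for all
objects of `S` if and only if every single object `Z` of `K` has one, with respect to its
self-correspondences only, if and only if for all `Z ∈ K` and `j ≥ 2` the iterated composites of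
self-correspondences vanish in the critical degree. -/
theorem Laws.local_criterion (S K : Set W.Obj) (hKS : K ⊆ S)
    (hK : ∀ X ∈ S, ∀ Y ∈ S, ∃ Z ∈ K, T.Summand X Z ∧ T.Summand Y Z) :
    [∃ F, T.IsBB S F, ∀ Z ∈ K, ∃ F, T.IsBB {Z} F,
      ∀ Z ∈ K, ∀ j : ℕ, 2 ≤ j → ∀ w, Reach T {Z} (j + 1) Z j w → w = 0].TFAE := by
  tfae_have 1 → 2 := by
    rintro ⟨F, hF⟩ Z hZ
    have hS : ∀ X ∈ ({Z} : Set W.Obj), X ∈ S := by
      intro X hX
      rw [Set.mem_singleton_iff.1 hX]
      exact hKS hZ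
    exact ⟨F, fun X hX => hF.cond1 X (hS X hX), fun X hX => hF.cond2 X (hS X hX),
      fun X hX Y hY => hF.cond3 X (hS X hX) Y (hS Y hY),
      fun X hX Y hY => hF.cond4 X (hS X hX) Y (hS Y hY)⟩
  tfae_have 2 → 3 := by
    intro h Z hZ j hj w hw
    exact (hT.exists_iff_reach {Z}).1 (h Z hZ) Z (Set.mem_singleton Z) j hj w hw
  tfae_have 3 → 1 := by
    intro h
    rw [hT.exists_iff_reach]
    intro X hX j hj w hw
    obtain ⟨Z, hZ, ⟨a, b, ha, hb, e⟩, h3⟩ := hT.reach_lift hK hKS hw hX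
    have h6 := h3 Z (hT.summand_refl Z) _ _ ha
    rw [add_sub_cancel_right] at h6
    rw [← e w, h Z hZ j hj _ h6, Gysin.act_zero]
  tfae_finish

end ChowTheory

end

end Pool.Agent.H23BB
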