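import Mathlib

set_option autoImplicit false

/-!
Formal intersection theory on a category with binary products: Chow rings and cohomology rings
with pull-back and push-forward, cycle class map and Abel-Jacobi map, the action of
correspondences, and systems of filtrations of Bloch-Beilinson type.
-/

universe w u v

namespace Pool.Agent.H23BB

noncomputable section

/-- A category with chosen binary products in which there are morphisms between any two objects
(for varieties: the constant maps). -/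
structure Geo where
  Obj : Type u
  Hom : Obj → Obj → Type w
  id : ∀ X : Obj, Hom X X
  comp : ∀ {X Y Z : Obj}, Hom X Y → Hom Y Z → Hom X Z
  prod : Obj → Obj → Obj
  fst : ∀ X Y : Obj, Hom (prod X Y) X
  snd : ∀ X Y : Obj, Hom (prod X Y) Y
  lift : ∀ {A X Y : Obj}, Hom A X → Hom A Y → Hom A (prod X Y)
  id_comp : ∀ {X Y : Obj} (f : Hom X Y), comp (id X) f = f
  comp_id : ∀ {X Y : Obj} (f : Hom X Y), comp f (id Y) = f
  assoc : ∀ {X Y Z A : Obj} (f : Hom X Y) (g : Hom Y Z) (h : Hom Z A),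
    comp (comp f g) h = comp f (comp g h)
  lift_fst : ∀ {A X Y : Obj} (f : Hom A X) (g : Hom A Y), comp (lift f g) (fst X Y) = f
  lift_snd : ∀ {A X Y : Obj} (f : Hom A X) (g : Hom A Y), comp (lift f g) (snd X Y) = g
  lift_ext : ∀ {A X Y : Obj} (f g : Hom A (prod X Y)),
    comp f (fst X Y) = comp g (fst X Y) → comp f (snd X Y) = comp g (snd X Y) → f = g
  conn : ∀ X Y : Obj, Nonempty (Hom X Y)

/-- the projection `(X × Y) × Z → X × Y` -/
def Geo.p12 (W : Geo.{w, u}) (X Y Z : W.Obj) : W.Hom (W.prod (W.prod X Y) Z) (W.prod X Y) :=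
  W.fst (W.prod X Y) Z

/-- the projection `(X × Y) × Z → X × Z` -/
def Geo.p13 (W : Geo.{w, u}) (X Y Z : W.Obj) : W.Hom (W.prod (W.prod X Y) Z) (W.prod X Z) :=
  W.lift (W.comp (W.fst (W.prod X Y) Z) (W.fst X Y)) (W.snd (W.prod X Y) Z)

/-- the projection `(X × Y) × Z → Y × Z` -/
def Geo.p23 (W : Geo.{w, u}) (X Y Z : W.Obj) : W.Hom (W.prod (W.prod X Y) Z) (W.prod Y Z) :=
  W.lift (W.comp (W.fst (W.prod X Y) Z) (W.snd X Y)) (W.snd (W.prod X Y) Z)

/-- The data of a theory with values in `ℚ`-algebras: pull-back and push-forward. -/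
structure Gysin (W : Geo.{w, u}) where
  R : W.Obj → Type v
  [ring : ∀ X, Ring (R X)]
  [algebra : ∀ X, Algebra ℚ (R X)]
  pull : ∀ {X Y : W.Obj}, W.Hom X Y → R Y →ₐ[ℚ] R X
  push : ∀ {X Y : W.Obj}, W.Hom X Y → R X →ₗ[ℚ] R Y

attribute [instance] Gysin.ring Gysin.algebra

variable {W : Geo.{w, u}}

namespace Gysin

variable (G : Gysin.{w, u, v} W)

/-- the `ℚ`-subspaces of `R X` -/
abbrev Sub (X : W.Obj) : Type v := Submodule ℚ (G.R X)

/-- `z` lies in the subspace `M` -/
def In {X : W.Obj} (M : G.Sub X) (z : G.R X) : Prop := z ∈ M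

/-- the product of two classes -/
def mul {X : W.Obj} (a b : G.R X) : G.R X := a * b

/-- the pull-back `f^* a` of a class -/
def pb {X Y : W.Obj} (f : W.Hom X Y) (a : G.R Y) : G.R X := G.pull f a

/-- the push-forward `f_* a` of a class -/
def pf {X Y : W.Obj} (f : W.Hom X Y) (a : G.R X) : G.R Y := G.push f a

/-- functoriality of pull-back and push-forward -/
def Functorial : Prop :=
  (∀ (X : W.Obj) (a : G.R X), G.pb (W.id X) a = a ∧ G.pf (W.id X) a = a) ∧
  (∀ (X Y Z : W.Obj) (f : W.Hom X Y) (g : W.Hom Y Z) (a : G.R Z),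
    G.pb (W.comp f g) a = G.pb f (G.pb g a)) ∧
  (∀ (X Y Z : W.Obj) (f : W.Hom X Y) (g : W.Hom Y Z) (a : G.R X),
    G.pf (W.comp f g) a = G.pf g (G.pf f a))

/-- the projection formula `f_* (f^* a · b) = a · f_* b` -/
def Projection : Prop :=
  ∀ (X Y : W.Obj) (f : W.Hom X Y) (a : G.R Y) (b : G.R X),
    G.pf f (G.mul (G.pb f a) b) = G.mul a (G.pf f b)

/-- base change for the cartesian square of projections of `X × Y × Z`:
`p_Y^* (q_{Y*} a) = p_{23*} (p_{12}^* a)` for `q_Y : X × Y → Y`, `p_Y : Y × Z → Y` -/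
def BaseChange : Prop :=
  ∀ (X Y Z : W.Obj) (a : G.R (W.prod X Y)),
    G.pb (W.fst Y Z) (G.pf (W.snd X Y) a) = G.pf (W.p23 X Y Z) (G.pb (W.p12 X Y Z) a)

/-- the formal laws of a theory -/
structure Laws : Prop where
  functorial : G.Functorial
  proj : G.Projection
  baseChange : G.BaseChange

/-- The action `γ_* a = p_{Y*} (p_X^* a · γ)` of a class `γ` on `X × Y`. -/
def act {X Y : W.Obj} (γ : G.R (W.prod X Y)) (a : G.R X) : G.R Y :=
  G.pf (W.snd X Y) (G.mul (G.pb (W.fst X Y) a) γ)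

/-- The composite `p_{13*} (p_{12}^* γ · p_{23}^* δ)` of classes on `X × Y` and `Y × Z`. -/
def comp {X Y Z : W.Obj} (γ : G.R (W.prod X Y)) (δ : G.R (W.prod Y Z)) : G.R (W.prod X Z) :=
  G.pf (W.p13 X Y Z) (G.mul (G.pb (W.p12 X Y Z) γ) (G.pb (W.p23 X Y Z) δ))

/-- The class of the transposed graph of `f`, on `Y × X`; it acts as `f^*`. -/
def graph {X Y : W.Obj} (f : W.Hom X Y) : G.R (W.prod Y X) :=
  G.pf (W.lift f (W.id X)) 1

variable {G}

theorem act_apply {X Y : W.Obj} (γ : G.R (W.prod X Y)) (a : G.R X) :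
    G.act γ a = G.push (W.snd X Y) (G.pull (W.fst X Y) a * γ) := rfl

/-- the action as a linear map -/
def actL (G : Gysin.{w, u, v} W) {X Y : W.Obj} (γ : G.R (W.prod X Y)) : G.R X →ₗ[ℚ] G.R Y :=
  (G.push (W.snd X Y)).comp
    ((LinearMap.mulRight ℚ γ).comp (G.pull (W.fst X Y)).toLinearMap)

theorem actL_apply {X Y : W.Obj} (γ : G.R (W.prod X Y)) (a : G.R X) :
    G.actL γ a = G.act γ a := rfl

theorem act_zero {X Y : W.Obj} (γ : G.R (W.prod X Y)) : G.act γ 0 = 0 := by
  rw [← actL_apply, map_zero]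

namespace Laws

variable (h : G.Laws)

include h

theorem pull_id (X : W.Obj) (a : G.R X) : G.pull (W.id X) a = a := (h.functorial.1 X a).1

theorem push_id (X : W.Obj) (a : G.R X) : G.push (W.id X) a = a := (h.functorial.1 X a).2

theorem pull_comp {X Y Z : W.Obj} (f : W.Hom X Y) (g : W.Hom Y Z) (a : G.R Z) :
    G.pull (W.comp f g) a = G.pull f (G.pull g a) := h.functorial.2.1 X Y Z f g a

theorem push_comp {X Y Z : W.Obj} (f : W.Hom X Y) (g : W.Hom Y Z) (a : G.R X) :
    G.push (W.comp f g) a = G.push g (G.push f a) := h.functorial.2.2 X Y Z f g a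

theorem projection {X Y : W.Obj} (f : W.Hom X Y) (a : G.R Y) (b : G.R X) :
    G.push f (G.pull f a * b) = a * G.push f b := h.proj X Y f a b

theorem base_change (X Y Z : W.Obj) (a : G.R (W.prod X Y)) :
    G.pull (W.fst Y Z) (G.push (W.snd X Y) a) =
      G.push (W.p23 X Y Z) (G.pull (W.p12 X Y Z) a) := h.baseChange X Y Z a

theorem act_comp {X Y Z : W.Obj} (γ : G.R (W.prod X Y)) (δ : G.R (W.prod Y Z))
    (hδ : ∀ b, b * δ = δ * b)
    (hδ' : ∀ b, b * G.pull (W.p23 X Y Z) δ = G.pull (W.p23 X Y Z) δ * b) (a : G.R X) :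
    G.act (G.comp γ δ) a = G.act δ (G.act γ a) := by
  have e : G.comp γ δ =
      G.push (W.p13 X Y Z) (G.pull (W.p12 X Y Z) γ * G.pull (W.p23 X Y Z) δ) := rfl
  rw [act_apply, act_apply, act_apply, h.base_change, hδ, ← h.projection, ← hδ',
    ← h.push_comp, e, ← h.projection, ← h.push_comp]
  have e1 : W.comp (W.p13 X Y Z) (W.snd X Z) = W.snd (W.prod X Y) Z := W.lift_snd _ _
  have e2 : W.comp (W.p23 X Y Z) (W.snd Y Z) = W.snd (W.prod X Y) Z := W.lift_snd _ _
  have e3 : W.comp (W.p13 X Y Z) (W.fst X Z) = W.comp (W.p12 X Y Z) (W.fst X Y) :=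
    W.lift_fst _ _
  rw [e1, e2, ← h.pull_comp, e3, h.pull_comp, ← mul_assoc, ← map_mul (G.pull _)]

theorem act_graph {X Y : W.Obj} (f : W.Hom X Y) (a : G.R Y) :
    G.act (G.graph f) a = G.pull f a := by
  have e : G.graph f = G.push (W.lift f (W.id X)) 1 := rfl
  rw [act_apply, e, ← h.projection, ← h.push_comp, mul_one, ← h.pull_comp]
  rw [W.lift_snd, W.lift_fst, h.push_id]

end Laws

end Gysin

/-- The data of the Chow groups (with rational coefficients), the cohomology groups, the cycle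
class maps and the Abel-Jacobi maps; the objects of `W` play the role of the varieties. -/
structure ChowTheory (W : Geo.{w, u}) where
  /-- the dimension -/
  dim : W.Obj → ℕ
  /-- the Chow rings -/
  C : Gysin.{w, u, v} W
  /-- `CH^j(X)` -/
  CH : ∀ X : W.Obj, ℤ → C.Sub X
  /-- the cohomology rings -/
  H : Gysin.{w, u, v} W
  /-- `H^m(X)` -/
  Coh : ∀ X : W.Obj, ℤ → H.Sub X
  /-- the cycle class maps -/
  cl : ∀ X : W.Obj, C.R X →ₐ[ℚ] H.R X
  /-- the intermediate Jacobians `J^{2j-1}(X) ⊗ ℚ` -/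
  J : W.Obj → ℤ → Type v
  [J_group : ∀ X j, AddCommGroup (J X j)]
  [J_module : ∀ X j, Module ℚ (J X j)]
  /-- the Abel-Jacobi maps; only the values on homologically trivial classes are relevant (and a
  linear map defined on these extends to all classes) -/
  AJ : ∀ (X : W.Obj) (j : ℤ), C.R X →ₗ[ℚ] J X j

attribute [instance] ChowTheory.J_group ChowTheory.J_module

namespace ChowTheory

variable (T : ChowTheory.{w, u, v} W)

/-- the cycle class of `z` -/
def cls {X : W.Obj} (z : T.C.R X) : T.H.R X := T.cl X z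

/-- `z ∈ CH^j(X)` -/
def InCH (X : W.Obj) (j : ℤ) (z : T.C.R X) : Prop := T.C.In (T.CH X j) z

/-- `α ∈ H^m(X)` -/
def InCoh (X : W.Obj) (m : ℤ) (α : T.H.R X) : Prop := T.H.In (T.Coh X m) α

/-- `z ∈ CH^j(X)` is homologically trivial -/
def InHom (X : W.Obj) (j : ℤ) (z : T.C.R X) : Prop := T.InCH X j z ∧ T.cls z = 0

/-- the value of the Abel-Jacobi map -/
def aj (X : W.Obj) (j : ℤ) (z : T.C.R X) : T.J X j := T.AJ X j z

/-- `z ∈ CH^j(X)` is homologically trivial and in the kernel of the Abel-Jacobi map -/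
def InKerAJ (X : W.Obj) (j : ℤ) (z : T.C.R X) : Prop := T.InHom X j z ∧ T.aj X j z = 0

/-- the correspondence `γ` acts as zero on `H^m(X)` -/
def Kills {X Y : W.Obj} (γ : T.C.R (W.prod X Y)) (m : ℤ) : Prop :=
  ∀ α : T.H.R X, T.InCoh X m α → T.H.act (T.cls γ) α = 0

/-- the laws for the Chow rings: they are commutative and graded, `CH^j(X) = 0` for `j < 0` and
`j > dim X`, pull-back preserves the degree, push-forward shifts it by the difference of the
dimensions -/
structure ChowLaws : Prop where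
  laws : T.C.Laws
  comm : ∀ (X : W.Obj) (a b : T.C.R X), T.C.mul a b = T.C.mul b a
  neg : ∀ (X : W.Obj) (j : ℤ) (a : T.C.R X), T.InCH X j a → j < 0 → a = 0
  top : ∀ (X : W.Obj) (j : ℤ) (a : T.C.R X), T.InCH X j a → T.dim X < j → a = 0
  one : ∀ X : W.Obj, T.InCH X 0 1
  mul : ∀ (X : W.Obj) (i j : ℤ) (a b : T.C.R X), T.InCH X i a → T.InCH X j b →
    T.InCH X (i + j) (T.C.mul a b)
  pull : ∀ (X Y : W.Obj) (f : W.Hom X Y) (j : ℤ) (a : T.C.R Y), T.InCH Y j a →
    T.InCH X j (T.C.pb f a)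
  push : ∀ (X Y : W.Obj) (f : W.Hom X Y) (j : ℤ) (a : T.C.R X), T.InCH X j a →
    T.InCH Y (j + T.dim Y - T.dim X) (T.C.pf f a)

/-- the laws for the cohomology rings: they are graded, pull-back preserves the degree,
push-forward shifts it by twice the difference of the dimensions -/
structure CohLaws : Prop where
  laws : T.H.Laws
  mul : ∀ (X : W.Obj) (i j : ℤ) (a b : T.H.R X), T.InCoh X i a → T.InCoh X j b →
    T.InCoh X (i + j) (T.H.mul a b)
  pull : ∀ (X Y : W.Obj) (f : W.Hom X Y) (j : ℤ) (a : T.H.R Y), T.InCoh Y j a →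
    T.InCoh X j (T.H.pb f a)
  push : ∀ (X Y : W.Obj) (f : W.Hom X Y) (j : ℤ) (a : T.H.R X), T.InCoh X j a →
    T.InCoh Y (j + 2 * T.dim Y - 2 * T.dim X) (T.H.pf f a)

/-- the laws for the cycle class map: compatible with pull-back and push-forward, with central
image, sending `CH^j` to `H^{2j}`, injective on `CH^0` -/
structure ClassLaws : Prop where
  pull : ∀ (X Y : W.Obj) (f : W.Hom X Y) (a : T.C.R Y), T.cls (T.C.pb f a) = T.H.pb f (T.cls a)
  push : ∀ (X Y : W.Obj) (f : W.Hom X Y) (a : T.C.R X), T.cls (T.C.pf f a) = T.H.pf f (T.cls a)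
  central : ∀ (X : W.Obj) (a : T.C.R X) (b : T.H.R X), T.H.mul (T.cls a) b = T.H.mul b (T.cls a)
  deg : ∀ (X : W.Obj) (j : ℤ) (a : T.C.R X), T.InCH X j a → T.InCoh X (2 * j) (T.cls a)
  inj : ∀ (X : W.Obj) (a : T.C.R X), T.InHom X 0 a → a = 0

/-- homomorphisms of intermediate Jacobians -/
abbrev JacHom (X : W.Obj) (j : ℤ) (Y : W.Obj) (i : ℤ) : Type v := T.J X j →+ T.J Y i

variable {T} in
/-- the value of a homomorphism of intermediate Jacobians -/
def jac {X : W.Obj} {j : ℤ} {Y : W.Obj} {i : ℤ} (φ : T.JacHom X j Y i) (x : T.J X j) :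
    T.J Y i := φ x

/-- functoriality of the Abel-Jacobi map for `γ ∈ CH^l(X × Y)`: the action of `γ` on
`CH^j(X)_hom` is compatible with a homomorphism `φ` of intermediate Jacobians, which is zero if
`γ` acts as zero on `H^{2j-1}(X)` -/
def AJFunctorial (X Y : W.Obj) (l j : ℤ) (γ : T.C.R (W.prod X Y)) : Prop :=
  ∃ φ : T.JacHom X j Y (j + l - T.dim X),
    (∀ z : T.C.R X, T.InHom X j z → T.aj Y (j + l - T.dim X) (T.C.act γ z) = jac φ (T.aj X j z)) ∧
    (T.Kills γ (2 * j - 1) → ∀ x : T.J X j, jac φ x = 0)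

/-- the laws for the Abel-Jacobi maps: functoriality, and injectivity for divisors -/
structure AJLaws : Prop where
  act : ∀ (X Y : W.Obj) (l j : ℤ) (γ : T.C.R (W.prod X Y)), T.InCH (W.prod X Y) l γ →
    T.AJFunctorial X Y l j γ
  inj : ∀ (X : W.Obj) (z : T.C.R X), T.InKerAJ X 1 z → z = 0

/-- The formal properties of Chow groups with rational coefficients, cohomology groups, cycle
class maps and Abel-Jacobi maps of smooth connected projective varieties. -/
structure Laws : Prop where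
  dim_prod : ∀ X Y : W.Obj, T.dim (W.prod X Y) = T.dim X + T.dim Y
  chow : T.ChowLaws
  coh : T.CohLaws
  class_laws : T.ClassLaws
  aj_laws : T.AJLaws

/-- `F^ν CH^j(X)` for all `X`, `j`, `ν` -/
abbrev Filt : Type (max u v) := ∀ X : W.Obj, ℤ → ℕ → T.C.Sub X

variable {T}

/-- `z ∈ F^ν CH^j(X)` -/
def InF (F : T.Filt) (X : W.Obj) (j : ℤ) (ν : ℕ) (z : T.C.R X) : Prop := T.C.In (F X j ν) z

variable (T)

/-- condition (1), and the filtration is decreasing: `F^0 = CH^j`, `F^1 =` homologically trivial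
classes, `F^2 =` kernel of the Abel-Jacobi map -/
structure Cond1 (F : T.Filt) (X : W.Obj) (j : ℤ) : Prop where
  anti : ∀ (ν : ℕ) (z : T.C.R X), InF F X j (ν + 1) z → InF F X j ν z
  zero : ∀ z : T.C.R X, InF F X j 0 z ↔ T.InCH X j z
  one : ∀ z : T.C.R X, InF F X j 1 z ↔ T.InHom X j z
  two : ∀ z : T.C.R X, InF F X j 2 z ↔ T.InKerAJ X j z

/-- condition (2): `F^{j+1} CH^j = 0` -/
def Cond2 (F : T.Filt) (X : W.Obj) : Prop :=
  ∀ (j : ℕ) (z : T.C.R X), InF F X j (j + 1) z → z = 0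

/-- condition (3): correspondences respect the filtration -/
def Cond3 (F : T.Filt) (X Y : W.Obj) : Prop :=
  ∀ (l j : ℤ) (ν : ℕ) (γ : T.C.R (W.prod X Y)) (z : T.C.R X), T.InCH (W.prod X Y) l γ →
    InF F X j ν z → InF F Y (j + l - T.dim X) ν (T.C.act γ z)

/-- condition (4): a correspondence which is zero on `H^{2j-ν}` is zero on the `ν`-th graded
piece of `CH^j` -/
def Cond4 (F : T.Filt) (X Y : W.Obj) : Prop :=
  ∀ (l j : ℤ) (ν : ℕ) (γ : T.C.R (W.prod X Y)) (z : T.C.R X), T.InCH (W.prod X Y) l γ →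
    T.Kills γ (2 * j - ν) → InF F X j ν z → InF F Y (j + l - T.dim X) (ν + 1) (T.C.act γ z)

/-- The filtrations `F^ν CH^j(X)`, for the objects `X` in the set `S`, satisfy conditions (1), (3)
and (4) for the objects in `S` and all correspondences between them. -/
structure IsPre (S : Set W.Obj) (F : T.Filt) : Prop where
  cond1 : ∀ X ∈ S, ∀ j : ℤ, T.Cond1 F X j
  cond3 : ∀ X ∈ S, ∀ Y ∈ S, T.Cond3 F X Y
  cond4 : ∀ X ∈ S, ∀ Y ∈ S, T.Cond4 F X Y

/-- A system of filtrations `F^ν CH^j(X)`, for the objects `X` in the set `S`, is of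
Bloch-Beilinson type: conditions (1) to (4) hold for the objects in `S` and all correspondences
between them. -/
structure IsBB (S : Set W.Obj) (F : T.Filt) : Prop where
  cond1 : ∀ X ∈ S, ∀ j : ℤ, T.Cond1 F X j
  cond2 : ∀ X ∈ S, T.Cond2 F X
  cond3 : ∀ X ∈ S, ∀ Y ∈ S, T.Cond3 F X Y
  cond4 : ∀ X ∈ S, ∀ Y ∈ S, T.Cond4 F X Y

/-- `X` is an untwisted direct summand of `Z`: there are correspondences `a ∈ CH^{dim X}(X × Z)`
and `b ∈ CH^{dim Z}(Z × X)`, which preserve the codimension of cycles, with `b_* a_* = id` on the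
Chow groups of `X`. -/
def Summand (X Z : W.Obj) : Prop :=
  ∃ (a : T.C.R (W.prod X Z)) (b : T.C.R (W.prod Z X)), T.InCH (W.prod X Z) (T.dim X) a ∧
    T.InCH (W.prod Z X) (T.dim Z) b ∧ ∀ z : T.C.R X, T.C.act b (T.C.act a z) = z

end ChowTheory

end

end Pool.Agent.H23BB
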